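import Pool.Agent.Helper4.TH.StD
import Pool.Agent.Helper99.W5.M_Ld

/-!
# Project TH, module LdV: leading forms of `T_3 T_13 + T_3² - T_7² - T_11 - 1`

Adapted from `Pool/Agent/Helper4/TL/M_LdV.lean`.
-/

set_option autoImplicit false

namespace Pool.Agent.Helper77.TH

open Pool.Agent.Helper4.TH Pool.Agent.Helper93.TLH
open Pool.Agent.Helper14.W5 Pool.Agent.Helper99.W5

section ops

variable {r s : ℕ}

/-- A multiple of a relation vanishes. -/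
private theorem lv_mulrel (hTrm : S5Trm) (hR : TRll) (F : Fin 2 → Fn5 (5 ^ r) (5 ^ s)) (h : RelH F)
    (ρ : Fin 2) (U : List Tm) (hU : ∀ t ∈ U, Gd t) (hr : ∀ f, ∀ t ∈ relH ρ f, Gd t) :
    ∑ f : Fin 2, opL (sclL (-1) (mulL U (relH ρ f))) (F f) = 0 := by
  have h1 : ∀ f : Fin 2, opL (sclL (-1) (mulL U (relH ρ f))) (F f) =
      ((-1 : ℤ) : ZMod 5) • (opL U) (opL (relH ρ f) (F f)) := by
    intro f
    rw [ld_scl, ld_mulL hTrm U (relH ρ f) hU (hr f)]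
    rfl
  rw [Finset.sum_congr rfl fun f _ => h1 f, ← Finset.smul_sum, ← map_sum, hR r s F h ρ, map_zero,
    smul_zero]

/-- The monomial `(oB - 1)^i * (oA - 1)^j`. -/
private theorem lv_lead (hTrm : S5Trm) (hLow0 : S5Low0) (hNfa : S5Nfa) (i j : ℕ) (d : ℤ)
    (F : Fn5 (5 ^ r) (5 ^ s)) (hF : F ∈ Wd5 d) :
    ldMon 0 (i, 0, j) F - (dY ^ i * dX ^ j : Module.End (ZMod 5) (Fn5 (5 ^ r) (5 ^ s))) F ∈
      Wd5 (d - (((i + j : ℕ) : ℤ) + 1)) := by
  obtain ⟨l1, l2, l3, l4, l5, l6, l7, l8, _⟩ := hLow0 r s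
  obtain ⟨n1, n2, n3, n4, n5, n6, n7, n8⟩ := hNfa r s
  have hA := ld_lw_pow hLow0 (oA - 1 : Module.End (ZMod 5) (Fn5 (5 ^ r) (5 ^ s))) 1
    (by exact_mod_cast n7) j
  have hB := ld_lw_pow hLow0 (oB - 1 : Module.End (ZMod 5) (Fn5 (5 ^ r) (5 ^ s))) 1
    (by exact_mod_cast n8) i
  have hX := ld_lw_pow hLow0 (dX : Module.End (ZMod 5) (Fn5 (5 ^ r) (5 ^ s))) 1
    (by exact_mod_cast l7) j
  have pA := ld_pow hLow0 _ _ n7 l7 n5 j
  have pB := ld_pow hLow0 _ _ n8 l8 n6 i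
  have q2 := l1 _ _ _ _ hB pA
  have q3 := l1 _ _ _ _ pB hX
  have e2 : ((1 * i : ℕ) : ℤ) + ((j : ℤ) + 2) = ((i + j : ℕ) : ℤ) + 2 := by push_cast; ring
  have e3 : (i : ℤ) + 2 + ((1 * j : ℕ) : ℤ) = ((i + j : ℕ) : ℤ) + 2 := by push_cast; ring
  rw [e2] at q2
  rw [e3] at q3
  have q4 := l2 _ _ _ q2 q3
  have e4 : (oB - 1) ^ i * ((oA - 1) ^ j - dX ^ j) + ((oB - 1) ^ i - dY ^ i) * dX ^ j =
      ((oB - 1) ^ i * (oA - 1) ^ j - dY ^ i * dX ^ j : Module.End (ZMod 5) (Fn5 (5 ^ r) (5 ^ s))) := by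
    rw [mul_sub, sub_mul]
    abel
  rw [e4] at q4
  have m2 := l4 _ _ (((i + j : ℕ) : ℤ) + 1) (by linarith) q4 d F hF
  have h1 : (oW 0 : Module.End (ZMod 5) (Fn5 (5 ^ r) (5 ^ s))) = 1 := by
    refine LinearMap.ext fun G => ?_
    exact (hTrm (ZMod 5) r s G).2.1
  have e6 : ldMon 0 (i, 0, j) F - (dY ^ i * dX ^ j : Module.End (ZMod 5) (Fn5 (5 ^ r) (5 ^ s))) F =
      ((oB - 1) ^ i * (oA - 1) ^ j - dY ^ i * dX ^ j : Module.End (ZMod 5) (Fn5 (5 ^ r) (5 ^ s))) F := by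
    rw [LinearMap.sub_apply]
    unfold ldMon
    simp only [pow_zero, mul_one, h1, one_mul]
  rw [e6]
  exact m2

/-- Sums over `w` and `M7` with one nonzero block. -/
private theorem lv_sum (S : Finset (ℕ × ℕ × ℕ)) (hS : S ⊆ M7) (c : Fin 4 → ℕ × ℕ × ℕ → ZMod 5)
    (hc : ∀ w t, w ≠ 0 ∨ t ∉ S → c w t = 0) :
    ∑ w, ∑ t ∈ M7, c w t • (ldMon w t : Module.End (ZMod 5) (Fn5 (5 ^ r) (5 ^ s))) =
      ∑ t ∈ S, c 0 t • ldMon 0 t := by
  rw [Finset.sum_eq_single (0 : Fin 4)]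
  · refine (Finset.sum_subset hS fun t _ hn => ?_).symm
    rw [hc 0 t (Or.inr hn), zero_smul]
  · intro w _ hw
    refine Finset.sum_eq_zero fun t _ => ?_
    rw [hc w t (Or.inl hw), zero_smul]
  · intro h
    exact absurd (Finset.mem_univ _) h

private theorem lv_Lo (hLow0 : S5Low0) : (LoH : Module.End (ZMod 5) (Fn5 (5 ^ r) (5 ^ s))) =
    (4 : ZMod 5) • (dY ^ 1 * dX ^ 5) + (4 : ZMod 5) • (dY ^ 3 * dX ^ 3) +
      (4 : ZMod 5) • (dY ^ 5 * dX ^ 1) := by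
  obtain ⟨l1, l2, l3, l4, l5, l6, l7, l8, hc, _⟩ := hLow0 r s
  have hc2 : ∀ Z : Module.End (ZMod 5) (Fn5 (5 ^ r) (5 ^ s)), dX * (dY * Z) = dY * (dX * Z) := by
    intro Z
    rw [← mul_assoc, hc, mul_assoc]
  have e : (dX * dY * (dX ^ 4 + dX ^ 2 * dY ^ 2 + dY ^ 4) : Module.End (ZMod 5) (Fn5 (5 ^ r) (5 ^ s))) =
      dY ^ 1 * dX ^ 5 + dY ^ 3 * dX ^ 3 + dY ^ 5 * dX ^ 1 := by
    simp only [pow_succ, pow_zero, one_mul, mul_add, mul_assoc, hc, hc2]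
  unfold LoH
  rw [e, ld_smul_add, ld_smul_add]

end ops

/-- Module LdV. -/
theorem hLdV (ht : S5Trm) (hl : S5Low0) (hn : S5Nfa) (he : S5Exp) (hr : TRll) (hg : TCeG) (hc : TCeV) :
    TLdV := by
  intro r s d F hR hF0 hF1 i
  have a3 : ∀ i f, ∀ t ∈ T3H i f, Gd t := fun i f => (hg i f).1
  have a7 : ∀ i f, ∀ t ∈ T7H i f, Gd t := fun i f => (hg i f).2.1
  have a11 : ∀ i f, ∀ t ∈ T11H i f, Gd t := fun i f => (hg i f).2.2.1
  have a13 : ∀ i f, ∀ t ∈ T13H i f, Gd t := fun i f => (hg i f).2.2.2.1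
  have ar : ∀ i f, ∀ t ∈ relH i f, Gd t := fun i f => (hg i f).2.2.2.2.1
  have av : ∀ i f, ∀ t ∈ mVH i f, Gd t := fun i f => (hg i f).2.2.2.2.2.2
  have hV : ∀ i f, ∀ t ∈ VLH i f, Gd t := fun i f =>
    ld_gd_app (ld_gd_app (ld_gd_app (ld_gd_app (ld_gd_mm a3 a13 i f) (ld_gd_mm a3 a3 i f))
      (ld_gd_scl _ (ld_gd_mm a7 a7 i f))) (ld_gd_scl _ (a11 i f))) (ld_gd_id (-1) i f)
  have hB : ∀ i f, ∀ t ∈ BVH i f, Gd t := fun i f =>
    ld_gd_app (ld_gd_app (hV i f) (ld_gd_scl _ (ld_gd_mulL (av i 0) (ar 0 f))))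
      (ld_gd_scl _ (ld_gd_mulL (av i 1) (ar 1 f)))
  -- modulo the relations
  have eV : ∑ f : Fin 2, opL (VLH i f) (F f) = ∑ f : Fin 2, opL (BVH i f) (F f) := by
    have h0 := lv_mulrel ht hr F hR 0 (mVH i 0) (av i 0) (ar 0)
    have h1 := lv_mulrel ht hr F hR 1 (mVH i 1) (av i 1) (ar 1)
    have e : ∀ f : Fin 2, opL (BVH i f) (F f) = opL (VLH i f) (F f) +
        opL (sclL (-1) (mulL (mVH i 0) (relH 0 f))) (F f) +
        opL (sclL (-1) (mulL (mVH i 1) (relH 1 f))) (F f) := by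
      intro f
      unfold BVH
      rw [ld_app, ld_app]
      rfl
    rw [Finset.sum_congr rfl fun f _ => e f, Finset.sum_add_distrib, Finset.sum_add_distrib, h0, h1,
      add_zero, add_zero]
  have hF : ∀ f : Fin 2, F f ∈ Wd5 d := by
    intro f
    fin_cases f
    · exact hF0
    · exact hF1
  have key : ∀ f : Fin 2, opL (BVH i f) (F f) - (if i = f then LoH (F f) else 0) ∈ Wd5 (d - 7) := by
    intro f
    have k := ld_key hl hn he (r := r) (s := s) (BVH i f) (hB i f) 7 (by norm_num)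
      (fun w t => ((if i = f ∧ w = 0 ∧ (t = (1, 0, 5) ∨ t = (3, 0, 3) ∨ t = (5, 0, 1)) then 4 else 0 : ℤ) : ZMod 5))
      (fun w t ht hw => ld_cast (hc i f w t ht))
    by_cases hif : i = f
    · rw [if_pos hif]
      rw [lv_sum {(1, 0, 5), (3, 0, 3), (5, 0, 1)} (by decide) _ (fun w t ht => by
          rw [if_neg, Int.cast_zero]
          rintro ⟨-, h1, h2⟩
          rcases ht with h3 | h3
          · exact h3 h1
          · exact h3 (by rw [Finset.mem_insert, Finset.mem_insert, Finset.mem_singleton]; exact h2)),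
          Finset.sum_insert (by decide), Finset.sum_insert (by decide), Finset.sum_singleton,
          if_pos ⟨hif, rfl, Or.inl rfl⟩, if_pos ⟨hif, rfl, Or.inr (Or.inl rfl)⟩,
          if_pos ⟨hif, rfl, Or.inr (Or.inr rfl)⟩] at k
      have h1 := k d (F f) (hF f)
      have e0 : ((7 : ℕ) : ℤ) = 7 := rfl
      rw [e0] at h1
      have a1 := Submodule.smul_mem _ (4 : ZMod 5) (lv_lead ht hl hn 1 5 d (F f) (hF f))
      have a2 := Submodule.smul_mem _ (4 : ZMod 5) (lv_lead ht hl hn 3 3 d (F f) (hF f))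
      have a3 := Submodule.smul_mem _ (4 : ZMod 5) (lv_lead ht hl hn 5 1 d (F f) (hF f))
      have e1 : d - (((1 + 5 : ℕ) : ℤ) + 1) = d - 7 := by norm_num
      have e2 : d - (((3 + 3 : ℕ) : ℤ) + 1) = d - 7 := by norm_num
      have e3 : d - (((5 + 1 : ℕ) : ℤ) + 1) = d - 7 := by norm_num
      rw [e1] at a1
      rw [e2] at a2
      rw [e3] at a3
      have e : opL (BVH i f) (F f) - LoH (F f) =
          (opL (BVH i f) - (((4 : ℤ) : ZMod 5) • ldMon 0 (1, 0, 5) + (((4 : ℤ) : ZMod 5) • ldMon 0 (3, 0, 3) +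
            ((4 : ℤ) : ZMod 5) • ldMon 0 (5, 0, 1))) :
            Module.End (ZMod 5) (Fn5 (5 ^ r) (5 ^ s))) (F f) +
          ((4 : ZMod 5) • (ldMon 0 (1, 0, 5) (F f) -
            (dY ^ 1 * dX ^ 5 : Module.End (ZMod 5) (Fn5 (5 ^ r) (5 ^ s))) (F f)) +
          (4 : ZMod 5) • (ldMon 0 (3, 0, 3) (F f) -
            (dY ^ 3 * dX ^ 3 : Module.End (ZMod 5) (Fn5 (5 ^ r) (5 ^ s))) (F f)) +
          (4 : ZMod 5) • (ldMon 0 (5, 0, 1) (F f) -
            (dY ^ 5 * dX ^ 1 : Module.End (ZMod 5) (Fn5 (5 ^ r) (5 ^ s))) (F f))) := by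
        rw [lv_Lo hl]
        simp only [LinearMap.sub_apply, LinearMap.add_apply, LinearMap.smul_apply, smul_sub]
        push_cast
        abel
      rw [e]
      exact Submodule.add_mem _ h1 (Submodule.add_mem _ (Submodule.add_mem _ a1 a2) a3)
    · rw [if_neg hif, sub_zero]
      have h0 : ∀ (w : Fin 4) (t : ℕ × ℕ × ℕ), (((if i = f ∧ w = 0 ∧
          (t = (1, 0, 5) ∨ t = (3, 0, 3) ∨ t = (5, 0, 1)) then 4 else 0 : ℤ)) : ZMod 5) = 0 := by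
        intro w t
        rw [if_neg (fun h => hif h.1), Int.cast_zero]
      simp only [h0, zero_smul, Finset.sum_const_zero, sub_zero] at k
      exact k d (F f) (hF f)
  have e : ∑ f : Fin 2, opL (VLH i f) (F f) - LoH (F i) =
      ∑ f : Fin 2, (opL (BVH i f) (F f) - (if i = f then LoH (F f) else 0)) := by
    rw [Finset.sum_sub_distrib, eV, Finset.sum_ite_eq, if_pos (Finset.mem_univ _)]
  rw [e]
  exact Submodule.sum_mem _ fun f _ => key f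

end Pool.Agent.Helper77.TH
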